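import Pool.Agent.Lib.MP_9277c3_lc.RO.Prog

/-!
# Context-free languages have read-once programs of size `n ^ O(log n)`
-/

namespace Pool.Agent.Lib.MP_9277c3_lc.RO

open Classical

variable {T : Type}

/-! ### Derivations of lists of symbols -/

/-- The list of symbols `γ` generates the word `w`. -/
inductive Gen (g : ContextFreeGrammar T) : List (Symbol T g.NT) → List T → Prop
  | nil : Gen g [] []
  | term (a : T) (γ : List (Symbol T g.NT)) (w : List T) (h : Gen g γ w) :
      Gen g (Symbol.terminal a :: γ) (a :: w)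
  | nonterm (r : ContextFreeRule T g.NT) (hr : r ∈ g.rules) (γ : List (Symbol T g.NT))
      (w w' : List T) (h : Gen g r.output w) (h' : Gen g γ w') :
      Gen g (Symbol.nonterminal r.input :: γ) (w ++ w')

variable {g : ContextFreeGrammar T}

theorem Gen.append {γ γ' : List (Symbol T g.NT)} {w w' : List T} (h : Gen g γ w)
    (h' : Gen g γ' w') : Gen g (γ ++ γ') (w ++ w') := by
  induction h with
  | nil => exact h'
  | term a γ w _ ih => exact Gen.term a _ _ ih
  | nonterm r hr γ w₁ w₂ h1 _ _ ih =>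
    rw [List.append_assoc]
    exact Gen.nonterm r hr _ _ _ h1 ih

theorem Gen.split : ∀ (γ : List (Symbol T g.NT)) {γ' : List (Symbol T g.NT)} {w : List T},
    Gen g (γ ++ γ') w → ∃ w₁ w₂, w = w₁ ++ w₂ ∧ Gen g γ w₁ ∧ Gen g γ' w₂
  | [], γ', w, h => ⟨[], w, rfl, Gen.nil, h⟩
  | X :: γ, γ', w, h => by
    rw [List.cons_append] at h
    cases h with
    | term a _ w h =>
      obtain ⟨w₁, w₂, rfl, h1, h2⟩ := Gen.split γ h
      exact ⟨a :: w₁, w₂, rfl, Gen.term a _ _ h1, h2⟩
    | nonterm r hr _ w w' h h' =>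
      obtain ⟨w₁, w₂, rfl, h1, h2⟩ := Gen.split γ h'
      exact ⟨w ++ w₁, w₂, by rw [List.append_assoc], Gen.nonterm r hr _ _ _ h h1, h2⟩

theorem Gen.self (w : List T) : Gen g (w.map Symbol.terminal) w := by
  induction w with
  | nil => exact Gen.nil
  | cons a w ih => exact Gen.term a _ _ ih

theorem gen_iff (γ : List (Symbol T g.NT)) (w : List T) :
    Gen g γ w ↔ g.Derives γ (w.map Symbol.terminal) := by
  constructor
  · intro h
    induction h with
    | nil => exact ContextFreeGrammar.Derives.refl _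
    | term a γ w _ ih =>
      exact ContextFreeGrammar.Derives.append_left ih [Symbol.terminal a]
    | nonterm r hr γ w w' _ _ ih ih' =>
      have h1 : g.Produces (Symbol.nonterminal r.input :: γ) (r.output ++ γ) :=
        ⟨r, hr, ContextFreeRule.Rewrites.head γ⟩
      have h2 := ih.append_right γ
      have h3 := ih'.append_left (w.map Symbol.terminal)
      rw [List.map_append]
      exact h1.trans_derives (h2.trans h3)
  · intro h
    have key : ∀ γ' : List (Symbol T g.NT), g.Derives γ γ' → ∀ w, Gen g γ' w → Gen g γ w := by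
      intro γ' h
      induction h with
      | refl => exact fun w h => h
      | tail _ h2 ih =>
        intro w hw
        obtain ⟨r, hr, h3⟩ := h2
        obtain ⟨p, q, rfl, rfl⟩ := h3.exists_parts
        refine ih w ?_
        rw [List.append_assoc] at hw
        obtain ⟨w₁, w₂, rfl, h4, h5⟩ := Gen.split p hw
        obtain ⟨w₃, w₄, rfl, h6, h7⟩ := Gen.split _ h5
        rw [List.append_assoc]
        exact h4.append (Gen.nonterm r hr _ _ _ h6 h7)
    exact key _ h w (Gen.self w)

/-- `β₁` and `β₂` are a correct splitting of `γ`. -/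
def Sp (g : ContextFreeGrammar T) (γ β₁ β₂ : List (Symbol T g.NT)) : Prop :=
  ∀ w₁ w₂, Gen g β₁ w₁ → Gen g β₂ w₂ → Gen g γ (w₁ ++ w₂)

/-- A set of lists of symbols which is closed under the operations needed. -/
structure Closed (g : ContextFreeGrammar T) (Q : List (Symbol T g.NT) → Prop) : Prop where
  cons : ∀ X γ, Q (X :: γ) → Q [X] ∧ Q γ
  out : ∀ r ∈ g.rules, Q r.output

theorem Gen.sp {Q : List (Symbol T g.NT) → Prop} (hQ : Closed g Q)
    {γ : List (Symbol T g.NT)} {w : List T} (h : Gen g γ w) (hγ : Q γ) (hw : 2 ≤ w.length) :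
    ∃ β₁ β₂ w₁ w₂, Q β₁ ∧ Q β₂ ∧ w₁ ≠ [] ∧ w₂ ≠ [] ∧ w = w₁ ++ w₂ ∧ Gen g β₁ w₁ ∧
      Gen g β₂ w₂ ∧ Sp g γ β₁ β₂ := by
  induction h with
  | nil => simp at hw
  | term a γ w h _ =>
    refine ⟨[Symbol.terminal a], γ, [a], w, (hQ.cons _ _ hγ).1, (hQ.cons _ _ hγ).2, by simp, ?_,
      rfl, Gen.term a _ _ Gen.nil, h, ?_⟩
    · rintro rfl
      simp at hw
    · intro w₁ w₂ h1 h2
      exact h1.append h2
  | nonterm r hr γ w w' h h' ih ih' =>
    by_cases h1 : w = []
    · subst h1
      obtain ⟨β₁, β₂, w₁, w₂, a1, a2, a3, a4, a5, a6, a7, a8⟩ :=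
        ih' (hQ.cons _ _ hγ).2 (by simpa using hw)
      refine ⟨β₁, β₂, w₁, w₂, a1, a2, a3, a4, by simpa using a5, a6, a7, ?_⟩
      intro v₁ v₂ b1 b2
      exact Gen.nonterm r hr γ [] _ h (a8 v₁ v₂ b1 b2)
    · by_cases h2 : w' = []
      · subst h2
        obtain ⟨β₁, β₂, w₁, w₂, a1, a2, a3, a4, a5, a6, a7, a8⟩ :=
          ih (hQ.out r hr) (by simpa using hw)
        refine ⟨β₁, β₂, w₁, w₂, a1, a2, a3, a4, by simpa using a5, a6, a7, ?_⟩
        intro v₁ v₂ b1 b2
        have := Gen.nonterm r hr γ _ [] (a8 v₁ v₂ b1 b2) h'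
        simpa using this
      · refine ⟨[Symbol.nonterminal r.input], γ, w, w', (hQ.cons _ _ hγ).1, (hQ.cons _ _ hγ).2,
          h1, h2, rfl, ?_, h', ?_⟩
        · have := Gen.nonterm r hr [] w [] h Gen.nil
          simpa using this
        · intro v₁ v₂ b1 b2
          exact b1.append b2

/-- A finite closed set which contains the initial symbol. -/
theorem exists_closed (g : ContextFreeGrammar T) :
    ∃ Q : Finset (List (Symbol T g.NT)), Closed g (· ∈ Q) ∧
      [Symbol.nonterminal g.initial] ∈ Q := by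
  let Q₀ : Finset (List (Symbol T g.NT)) :=
    insert [Symbol.nonterminal g.initial] (g.rules.image fun r => r.output)
  let Q : Finset (List (Symbol T g.NT)) :=
    Q₀.biUnion fun δ => δ.tails.toFinset ∪ (δ.map fun X => [X]).toFinset
  have hQ : ∀ γ, γ ∈ Q ↔ ∃ δ ∈ Q₀, γ <:+ δ ∨ ∃ X ∈ δ, [X] = γ := by
    intro γ
    simp only [Q, Finset.mem_biUnion, Finset.mem_union, List.mem_toFinset, List.mem_tails,
      List.mem_map]
  have hself : ∀ δ ∈ Q₀, δ ∈ Q := fun δ h => (hQ δ).2 ⟨δ, h, Or.inl (List.suffix_refl _)⟩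
  refine ⟨Q, ⟨?_, ?_⟩, ?_⟩
  · intro X γ h
    obtain ⟨δ, hδ, h | ⟨Y, hY, h⟩⟩ := (hQ _).1 h
    · refine ⟨(hQ _).2 ⟨δ, hδ, Or.inr ⟨X, h.subset List.mem_cons_self, rfl⟩⟩,
        (hQ _).2 ⟨δ, hδ, Or.inl ((List.suffix_cons X γ).trans h)⟩⟩
    · simp only [List.cons.injEq] at h
      obtain ⟨rfl, rfl⟩ := h
      exact ⟨(hQ _).2 ⟨δ, hδ, Or.inr ⟨Y, hY, rfl⟩⟩,
        (hQ _).2 ⟨δ, hδ, Or.inl (List.nil_suffix)⟩⟩
  · intro r hr
    exact hself _ (Finset.mem_insert_of_mem (Finset.mem_image_of_mem _ hr))
  · exact hself _ (Finset.mem_insert_self _ _)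

/-! ### The program -/

section prog

variable (g) (Q : Finset (List (Symbol T g.NT))) (n D : ℕ)

/-- Items: a list of symbols and two positions. -/
abbrev Item : Type := {γ // γ ∈ Q} × Fin (n + 1) × Fin (n + 1)

/-- Nodes: stacks of at most `D` items. -/
abbrev Stack : Type := {l : List (Item g Q n) // l.length ≤ D}

/-- The edges on lists of items. -/
inductive Edge : List (Item g Q n) → Option (Fin n × T) → List (Item g Q n) → Prop
  | pop (γ : {γ // γ ∈ Q}) (i : Fin (n + 1)) (l : List (Item g Q n)) (h : Gen g γ.1 []) :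
      Edge ((γ, i, i) :: l) none l
  | test (γ : {γ // γ ∈ Q}) (i : Fin n) (a : T) (l : List (Item g Q n)) (h : Gen g γ.1 [a]) :
      Edge ((γ, i.castSucc, i.succ) :: l) (some (i, a)) l
  | left (γ β₁ β₂ : {γ // γ ∈ Q}) (i m j : Fin (n + 1)) (l : List (Item g Q n)) (h1 : i < m)
      (h2 : m < j) (h : Sp g γ.1 β₁.1 β₂.1) :
      Edge ((γ, i, j) :: l) none ((β₁, i, m) :: (β₂, m, j) :: l)
  | right (γ β₁ β₂ : {γ // γ ∈ Q}) (i m j : Fin (n + 1)) (l : List (Item g Q n)) (h1 : i < m)
      (h2 : m < j) (h : Sp g γ.1 β₁.1 β₂.1) :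
      Edge ((γ, i, j) :: l) none ((β₂, m, j) :: (β₁, i, m) :: l)

/-- The program. -/
def prog [Finite T] (S : {γ // γ ∈ Q}) (hD : 1 ≤ D) : NBP T n where
  Node := Stack g Q n D
  finite_node := by
    have : Finite (Item g Q n) := inferInstance
    exact (List.finite_length_le (Item g Q n) D).to_subtype
  start := ⟨[(S, 0, Fin.last n)], by simpa using hD⟩
  accept := {⟨[], Nat.zero_le _⟩}
  edge := fun p o q => Edge g Q n p.1 o q.1

/-- The positions which belong to the items. -/
def posOf (l : List (Item g Q n)) : List ℕ :=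
  l.flatMap fun I => List.range' I.2.1 (I.2.2 - I.2.1)

/-- The factor of the word `x` between two positions. -/
def factor (x : Fin n → T) (i j : ℕ) : List T := ((List.ofFn x).drop i).take (j - i)

theorem factor_append (x : Fin n → T) {i m j : ℕ} (h1 : i ≤ m) (h2 : m ≤ j) :
    factor n x i j = factor n x i m ++ factor n x m j := by
  have e : j - i = (m - i) + (j - m) := by omega
  rw [factor, factor, factor, e, List.take_add, List.drop_drop]
  congr 3
  omega

theorem length_factor (x : Fin n → T) {i j : ℕ} (h1 : i ≤ j) (h2 : j ≤ n) :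
    (factor n x i j).length = j - i := by
  rw [factor, List.length_take, List.length_drop, List.length_ofFn]
  omega

theorem factor_one (x : Fin n → T) (i : Fin n) : factor n x i (i + 1) = [x i] := by
  rw [factor]
  have : (i : ℕ) + 1 - i = 1 := by omega
  rw [this, List.drop_eq_getElem_cons (by simp)]
  simp

theorem factor_self (x : Fin n → T) (i : ℕ) : factor n x i i = [] := by
  rw [factor]
  simp

theorem factor_full (x : Fin n → T) : factor n x 0 n = List.ofFn x := by
  rw [factor]
  simp

variable [Finite T] {S : {γ // γ ∈ Q}} {hD : 1 ≤ D}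

/-- Properties of the paths which empty the stack. -/
theorem path_sound {p q : (prog g Q n D S hD).Node} {t : List (Fin n × T)}
    (h : (prog g Q n D S hD).Path p t q) (hq : q.1 = [])
    (hp : ∀ I ∈ p.1, I.2.1 ≤ I.2.2) :
    (t.map fun c => (c.1 : ℕ)).Perm (posOf g Q n p.1) ∧
      ∀ x : Fin n → T, (∀ c ∈ t, x c.1 = c.2) → ∀ I ∈ p.1, Gen g I.1.1 (factor n x I.2.1 I.2.2) := by
  induction h with
  | nil p =>
    rw [hq]
    simp [posOf]
  | free p q r l h _ ih =>
    have h' : Edge g Q n p.1 none q.1 := h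
    obtain ⟨p, hp1⟩ := p
    obtain ⟨q, hq1⟩ := q
    simp only at h' hp ih ⊢
    cases h' with
    | pop γ i _ hγ =>
      obtain ⟨ih1, ih2⟩ := ih hq (fun I hI => hp I (List.mem_cons_of_mem _ hI))
      refine ⟨?_, ?_⟩
      · rw [posOf, List.flatMap_cons]
        simpa [posOf] using ih1
      · intro x hx I hI
        rw [List.mem_cons] at hI
        rcases hI with rfl | hI
        · simpa [factor_self] using hγ
        · exact ih2 x hx I hI
    | left γ β₁ β₂ i m j l' h1 h2 hsp =>
      replace h1 := h1.le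
      replace h2 := h2.le
      obtain ⟨ih1, ih2⟩ := ih hq (by
        intro I hI
        simp only [List.mem_cons] at hI
        rcases hI with rfl | rfl | hI
        · exact h1
        · exact h2
        · exact hp I (List.mem_cons_of_mem _ hI))
      refine ⟨?_, ?_⟩
      · refine ih1.trans ?_
        have h1' : (i : ℕ) ≤ m := h1
        have h2' : (m : ℕ) ≤ j := h2
        simp only [posOf, List.flatMap_cons]
        rw [← List.append_assoc]
        have e : List.range' (i : ℕ) ((m : ℕ) - i) ++ List.range' (m : ℕ) ((j : ℕ) - m) =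
            List.range' (i : ℕ) ((j : ℕ) - i) := by
          have := @List.range'_append_1 (i : ℕ) ((m : ℕ) - i) ((j : ℕ) - m)
          rw [show (i : ℕ) + ((m : ℕ) - i) = m by omega,
            show ((m : ℕ) - i) + ((j : ℕ) - m) = (j : ℕ) - i by omega] at this
          exact this
        rw [e]
      · intro x hx I hI
        rw [List.mem_cons] at hI
        rcases hI with rfl | hI
        · have b1 := ih2 x hx _ (List.mem_cons_self)
          have b2 := ih2 x hx _ (List.mem_cons_of_mem _ (List.mem_cons_self))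
          simp only at b1 b2 ⊢
          rw [factor_append n x (m := (m : ℕ)) h1 h2]
          exact hsp _ _ b1 b2
        · exact ih2 x hx I (List.mem_cons_of_mem _ (List.mem_cons_of_mem _ hI))
    | right γ β₁ β₂ i m j l' h1 h2 hsp =>
      replace h1 := h1.le
      replace h2 := h2.le
      obtain ⟨ih1, ih2⟩ := ih hq (by
        intro I hI
        simp only [List.mem_cons] at hI
        rcases hI with rfl | rfl | hI
        · exact h2
        · exact h1
        · exact hp I (List.mem_cons_of_mem _ hI))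
      refine ⟨?_, ?_⟩
      · refine ih1.trans ?_
        have h1' : (i : ℕ) ≤ m := h1
        have h2' : (m : ℕ) ≤ j := h2
        simp only [posOf, List.flatMap_cons]
        rw [← List.append_assoc]
        have e : List.range' (i : ℕ) ((m : ℕ) - i) ++ List.range' (m : ℕ) ((j : ℕ) - m) =
            List.range' (i : ℕ) ((j : ℕ) - i) := by
          have := @List.range'_append_1 (i : ℕ) ((m : ℕ) - i) ((j : ℕ) - m)
          rw [show (i : ℕ) + ((m : ℕ) - i) = m by omega,
            show ((m : ℕ) - i) + ((j : ℕ) - m) = (j : ℕ) - i by omega] at this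
          exact this
        rw [← e]
        exact List.Perm.append_right _ List.perm_append_comm
      · intro x hx I hI
        rw [List.mem_cons] at hI
        rcases hI with rfl | hI
        · have b1 := ih2 x hx _ (List.mem_cons_self)
          have b2 := ih2 x hx _ (List.mem_cons_of_mem _ (List.mem_cons_self))
          simp only at b1 b2 ⊢
          rw [factor_append n x (m := (m : ℕ)) h1 h2]
          exact hsp _ _ b2 b1
        · exact ih2 x hx I (List.mem_cons_of_mem _ (List.mem_cons_of_mem _ hI))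
  | test p q r t l h _ ih =>
    have h' : Edge g Q n p.1 (some t) q.1 := h
    obtain ⟨p, hp1⟩ := p
    obtain ⟨q, hq1⟩ := q
    simp only at h' hp ih ⊢
    cases h' with
    | test γ i a _ hγ =>
      obtain ⟨ih1, ih2⟩ := ih hq (fun I hI => hp I (List.mem_cons_of_mem _ hI))
      refine ⟨?_, ?_⟩
      · simp only [posOf, List.flatMap_cons, List.map_cons, Fin.val_castSucc, Fin.val_succ]
        have : (i : ℕ) + 1 - i = 1 := by omega
        rw [this]
        simp only [List.range'_one, List.cons_append, List.nil_append]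
        exact ih1.cons _
      · intro x hx I hI
        rw [List.mem_cons] at hI
        rcases hI with rfl | hI
        · simp only [Fin.val_castSucc, Fin.val_succ]
          rw [factor_one, hx (i, a) (List.mem_cons_self)]
          exact hγ
        · exact ih2 x (fun c hc => hx c (List.mem_cons_of_mem _ hc)) I hI

theorem path_free (p q r : Stack g Q n D) (t : List (Fin n × T))
    (h : Edge g Q n p.1 none q.1) (h' : (prog g Q n D S hD).Path q t r) :
    (prog g Q n D S hD).Path p t r :=
  NBP.Path.free (B := prog g Q n D S hD) p q r t h h'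

/-- Every true item can be removed from the stack. -/
theorem path_complete (hQ : Closed g (· ∈ Q)) (x : Fin n → T) : ∀ (s : ℕ) (γ : {γ // γ ∈ Q})
    (i j : Fin (n + 1)) (l : List (Item g Q n)) (_ : i ≤ j) (_ : (j : ℕ) - i = s)
    (_ : Gen g γ.1 (factor n x i j)) (_ : l.length + 1 + Nat.log 2 s ≤ D),
    ∃ t : List (Fin n × T), (∀ c ∈ t, x c.1 = c.2) ∧
      (prog g Q n D S hD).Path ⟨(γ, i, j) :: l, by simp only [List.length_cons]; omega⟩ t
        ⟨l, by omega⟩ := by
  intro s
  induction s using Nat.strong_induction_on with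
  | _ s ih =>
    intro γ i j l hij hs hG hl
    have hij' : (i : ℕ) ≤ j := hij
    have hjn : (j : ℕ) ≤ n := Nat.lt_succ_iff.1 j.2
    rcases Nat.lt_or_ge s 2 with hs2 | hs2
    · interval_cases s
      · have e : i = j := Fin.ext (by omega)
        subst e
        rw [factor_self] at hG
        exact ⟨[], by simp, path_free g Q n D _ ⟨l, by omega⟩ _ _ (Edge.pop γ i l hG)
          (NBP.Path.nil _)⟩
      · have hi : (i : ℕ) < n := by omega
        have e1 : i = (⟨i, hi⟩ : Fin n).castSucc := Fin.ext rfl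
        have e2 : j = (⟨i, hi⟩ : Fin n).succ := Fin.ext (by simp only [Fin.val_succ]; omega)
        have e3 : (j : ℕ) = (⟨i, hi⟩ : Fin n) + 1 := by
          simp only
          omega
        have hG' : Gen g γ.1 [x ⟨i, hi⟩] := by
          rw [← factor_one n x ⟨i, hi⟩, ← e3]
          exact hG
        refine ⟨[(⟨i, hi⟩, x ⟨i, hi⟩)], by simp, ?_⟩
        refine NBP.Path.test _ _ _ _ _ ?_ (NBP.Path.nil _)
        have := Edge.test (g := g) (Q := Q) γ ⟨i, hi⟩ (x ⟨i, hi⟩) l hG'
        rw [← e1, ← e2] at this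
        exact this
    · have hlen := length_factor n x hij' hjn
      obtain ⟨β₁, β₂, w₁, w₂, a1, a2, a3, a4, a5, a6, a7, a8⟩ :=
        hG.sp hQ γ.2 (by rw [hlen]; omega)
      have hw1 : 0 < w₁.length := List.length_pos_iff.2 a3
      have hw2 : 0 < w₂.length := List.length_pos_iff.2 a4
      have hww : w₁.length + w₂.length = j - i := by
        rw [← hlen, a5, List.length_append]
      obtain ⟨m, hm⟩ : ∃ m : Fin (n + 1), (m : ℕ) = i + w₁.length :=
        ⟨⟨i + w₁.length, by omega⟩, rfl⟩
      have him : (i : ℕ) ≤ m := by omega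
      have hmj : (m : ℕ) ≤ j := by omega
      have him' : i < m := Fin.lt_def.2 (by omega)
      have hmj' : m < j := Fin.lt_def.2 (by omega)
      have hf := factor_append n x him hmj
      rw [a5] at hf
      have hl1 := length_factor n x him (by omega)
      have hinj := List.append_inj hf (by rw [hl1]; omega)
      have b1 : Gen g β₁ (factor n x i m) := by rw [← hinj.1]; exact a6
      have b2 : Gen g β₂ (factor n x m j) := by rw [← hinj.2]; exact a7
      have hlog : ∀ a b : ℕ, 0 < a → 0 < b → a + b = s → a ≤ b →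
          Nat.log 2 a + 1 ≤ Nat.log 2 s ∧ Nat.log 2 b ≤ Nat.log 2 s := by
        intro a b ha hb hab hle
        refine ⟨?_, Nat.log_mono_right (by omega)⟩
        have : Nat.log 2 (a * 2) ≤ Nat.log 2 s := Nat.log_mono_right (by omega)
        rwa [Nat.log_mul_base (by norm_num) (by omega)] at this
      rcases le_total ((m : ℕ) - i) (j - m) with hle | hle
      · obtain ⟨c1, c2⟩ := hlog ((m : ℕ) - i) (j - m) (by omega) (by omega) (by omega) hle
        obtain ⟨t1, ht1, hp1⟩ := ih ((m : ℕ) - i) (by omega) ⟨β₁, a1⟩ i m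
          ((⟨β₂, a2⟩, m, j) :: l) him rfl b1 (by simp only [List.length_cons]; omega)
        obtain ⟨t2, ht2, hp2⟩ := ih ((j : ℕ) - m) (by omega) ⟨β₂, a2⟩ m j l hmj rfl b2 (by omega)
        refine ⟨t1 ++ t2, ?_, ?_⟩
        · intro c hc
          rw [List.mem_append] at hc
          rcases hc with hc | hc
          · exact ht1 c hc
          · exact ht2 c hc
        · exact path_free g Q n D _ ⟨(⟨β₁, a1⟩, i, m) :: (⟨β₂, a2⟩, m, j) :: l, by
                simp only [List.length_cons]; omega⟩ _ _
            (Edge.left γ ⟨β₁, a1⟩ ⟨β₂, a2⟩ i m j l him' hmj' a8) (hp1.append hp2)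
      · obtain ⟨c1, c2⟩ := hlog ((j : ℕ) - m) (m - i) (by omega) (by omega) (by omega) hle
        obtain ⟨t1, ht1, hp1⟩ := ih ((j : ℕ) - m) (by omega) ⟨β₂, a2⟩ m j
          ((⟨β₁, a1⟩, i, m) :: l) hmj rfl b2 (by simp only [List.length_cons]; omega)
        obtain ⟨t2, ht2, hp2⟩ := ih ((m : ℕ) - i) (by omega) ⟨β₁, a1⟩ i m l him rfl b1 (by omega)
        refine ⟨t1 ++ t2, ?_, ?_⟩
        · intro c hc
          rw [List.mem_append] at hc
          rcases hc with hc | hc
          · exact ht1 c hc
          · exact ht2 c hc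
        · exact path_free g Q n D _ ⟨(⟨β₂, a2⟩, m, j) :: (⟨β₁, a1⟩, i, m) :: l, by
                simp only [List.length_cons]; omega⟩ _ _
            (Edge.right γ ⟨β₁, a1⟩ ⟨β₂, a2⟩ i m j l him' hmj' a8) (hp1.append hp2)

end prog

theorem card_stack_le (X : Type) [Finite X] (D : ℕ) :
    Nat.card {l : List X // l.length ≤ D} ≤ (Nat.card X + 1) ^ D := by
  have h1 : Nat.card (Fin D → Option X) = (Nat.card X + 1) ^ D := by
    rw [Nat.card_fun, Finite.card_option, Nat.card_fin]
  rw [← h1]
  refine Nat.card_le_card_of_injective (fun l i => l.1[(i : ℕ)]?) ?_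
  intro l l' h
  apply Subtype.ext
  apply List.ext_getElem?
  intro i
  rcases Nat.lt_or_ge i D with hi | hi
  · exact congrFun h ⟨i, hi⟩
  · rw [List.getElem?_eq_none (by have := l.2; omega),
      List.getElem?_eq_none (by have := l'.2; omega)]

/-- Every context-free language has read-once nondeterministic programs of size
`n ^ O(log n)`: the form with the program `prog`. -/
theorem upper' [Finite T] (L : Language T) (hL : L.IsContextFree) : ∃ C : ℕ, ∀ n : ℕ,
    ∃ (g : ContextFreeGrammar T) (Q : Finset (List (Symbol T g.NT))) (D : ℕ) (S : {γ // γ ∈ Q})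
      (hD : 1 ≤ D),
      (∀ x : Fin n → T, (prog g Q n D S hD).Accepts x ↔ List.ofFn x ∈ L) ∧
      (∀ t, (prog g Q n D S hD).Path (prog g Q n D S hD).start t
        (⟨[], Nat.zero_le _⟩ : Stack g Q n D) → (t.map Prod.fst).Nodup) ∧
      Nat.card (prog g Q n D S hD).Node ≤ (n + 2) ^ (C * (Nat.log 2 n + 1)) := by
  obtain ⟨g, rfl⟩ := hL
  obtain ⟨Q, hQ, hS⟩ := exists_closed g
  refine ⟨Q.card + 2, fun n => ?_⟩
  let S : {γ // γ ∈ Q} := ⟨_, hS⟩
  have hD : 1 ≤ Nat.log 2 n + 1 := by omega
  have hstart : ∀ I ∈ ((prog g Q n (Nat.log 2 n + 1) S hD).start : Stack g Q n _).1,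
      I.2.1 ≤ I.2.2 := by
    intro I hI
    have : I = (S, 0, Fin.last n) := List.mem_singleton.1 hI
    rw [this]
    exact Fin.zero_le _
  refine ⟨g, Q, Nat.log 2 n + 1, S, hD, ?_, ?_, ?_⟩
  · intro x
    rw [ContextFreeGrammar.mem_language_iff, ← gen_iff]
    constructor
    · rintro ⟨t, q, h1, h2, h3⟩
      have hq : (q : Stack g Q n _).1 = [] := by
        have : q = (⟨[], Nat.zero_le _⟩ : Stack g Q n _) := h2
        rw [this]
      have := (path_sound g Q n _ h1 hq hstart).2 x h3 (S, 0, Fin.last n)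
        (List.mem_singleton.2 rfl)
      simpa [factor_full] using this
    · intro h
      obtain ⟨t, h1, h2⟩ := path_complete (S := S) (hD := hD) g Q n _ hQ x n S 0 (Fin.last n) []
        (Fin.zero_le _) (by simp) (by simpa [factor_full] using h)
        (by simp only [List.length_nil]; omega)
      exact ⟨t, _, h2, rfl, h1⟩
  · intro t h1
    have h3 := (path_sound g Q n _ h1 rfl hstart).1
    have h4 : (t.map fun c => (c.1 : ℕ)).Nodup := by
      rw [h3.nodup_iff]
      have : posOf g Q n ((prog g Q n (Nat.log 2 n + 1) S hD).start : Stack g Q n _).1 =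
          List.range' 0 n := by
        change posOf g Q n [(S, 0, Fin.last n)] = _
        simp [posOf]
      rw [this]
      exact List.nodup_range'
    have e : (t.map fun c => (c.1 : ℕ)) = (t.map Prod.fst).map Fin.val := by
      rw [List.map_map]
      rfl
    rw [e] at h4
    exact h4.of_map _
  · have h1 := card_stack_le (Item g Q n) (Nat.log 2 n + 1)
    have h2 : Nat.card (Item g Q n) = Q.card * ((n + 1) * (n + 1)) := by
      rw [Nat.card_prod, Nat.card_prod, Nat.card_fin]
      congr 1
      rw [Nat.card_eq_fintype_card, Fintype.card_coe]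
    have h3 : Nat.card (Item g Q n) + 1 ≤ (n + 2) ^ (Q.card + 2) := by
      rw [h2, pow_add]
      have a1 : Q.card + 1 ≤ (n + 2) ^ Q.card :=
        (Nat.lt_two_pow_self).trans_le (Nat.pow_le_pow_left (by omega) _)
      calc Q.card * ((n + 1) * (n + 1)) + 1 ≤ (Q.card + 1) * (n + 2) ^ 2 := by nlinarith
        _ ≤ _ := Nat.mul_le_mul_right _ a1
    calc Nat.card (prog g Q n (Nat.log 2 n + 1) S hD).Node
        ≤ (Nat.card (Item g Q n) + 1) ^ (Nat.log 2 n + 1) := h1
      _ ≤ ((n + 2) ^ (Q.card + 2)) ^ (Nat.log 2 n + 1) := Nat.pow_le_pow_left h3 _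
      _ = _ := by rw [← pow_mul]

/-- Every context-free language has read-once nondeterministic programs of size
`n ^ O(log n)`. -/
theorem upper [Finite T] (L : Language T) (hL : L.IsContextFree) : ∃ C : ℕ, ∀ n : ℕ,
    ∃ B : NBP T n, (∀ x : Fin n → T, B.Accepts x ↔ List.ofFn x ∈ L) ∧ B.ReadOnceUpTo 0 ∧
      Nat.card B.Node ≤ (n + 2) ^ (C * (Nat.log 2 n + 1)) := by
  obtain ⟨C, hC⟩ := upper' L hL
  refine ⟨C, fun n => ?_⟩
  obtain ⟨g, Q, D, S, hD, h1, h2, h3⟩ := hC n
  refine ⟨prog g Q n D S hD, h1, ?_, h3⟩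
  intro t q h4 h5
  have hq : q = (⟨[], Nat.zero_le _⟩ : Stack g Q n _) := h5
  subst hq
  have h6 := h2 t h4
  rw [Nat.le_zero, Finset.card_eq_zero, NBP.repeated, Finset.filter_eq_empty_iff]
  intro i _ hi
  have := List.nodup_iff_count_le_one.1 h6 i
  omega

end Pool.Agent.Lib.MP_9277c3_lc.RO
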