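import Mathlib

/-!
# Nondeterministic branching programs
-/

namespace Pool.Agent.Lib.MP_9277c3_lc.RO

/-- A nondeterministic branching program for words of length `n`: a finite directed graph with a
start node and accepting nodes; an edge has no label (`none`) or is labelled by a test
`some (i, a)`: the letter at position `i` is `a`. -/
structure NBP (α : Type) (n : ℕ) where
  Node : Type
  finite_node : Finite Node
  start : Node
  accept : Set Node
  edge : Node → Option (Fin n × α) → Node → Prop

namespace NBP

variable {α : Type} {n : ℕ} (B : NBP α n)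

/-- `Path p l q`: there is a path from `p` to `q` whose tests are, in this order, the members
of `l`. -/
inductive Path : B.Node → List (Fin n × α) → B.Node → Prop
  | nil (p : B.Node) : Path p [] p
  | free (p q r : B.Node) (l : List (Fin n × α)) (h : B.edge p none q) (h' : Path q l r) :
      Path p l r
  | test (p q r : B.Node) (t : Fin n × α) (l : List (Fin n × α)) (h : B.edge p (some t) q)
      (h' : Path q l r) : Path p (t :: l) r

/-- The word `x` is accepted: there is a path from the start to an accepting node, all tests of
which hold for `x`. -/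
def Accepts (x : Fin n → α) : Prop :=
  ∃ l q, B.Path B.start l q ∧ q ∈ B.accept ∧ ∀ t ∈ l, x t.1 = t.2

open Classical in
/-- The positions which occur at least twice in the tests `l`. -/
noncomputable def repeated (l : List (Fin n × α)) : Finset (Fin n) :=
  Finset.univ.filter fun i => 2 ≤ (l.map Prod.fst).count i

/-- On every path from the start to an accepting node (consistent or not) at most `s` positions
are tested more than once. -/
def ReadOnceUpTo (s : ℕ) : Prop :=
  ∀ l q, B.Path B.start l q → q ∈ B.accept → (repeated l).card ≤ s

variable {B}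

theorem Path.append {p q r : B.Node} {l l' : List (Fin n × α)} (h : B.Path p l q)
    (h' : B.Path q l' r) : B.Path p (l ++ l') r := by
  induction h with
  | nil p => exact h'
  | free p q r₁ l h _ ih => exact Path.free _ _ _ _ h (ih h')
  | test p q r₁ t l h _ ih => exact Path.test _ _ _ _ _ h (ih h')

theorem Path.split {p r : B.Node} {l : List (Fin n × α)} (h : B.Path p l r) :
    ∀ t : ℕ, ∃ q, B.Path p (l.take t) q ∧ B.Path q (l.drop t) r := by
  induction h with
  | nil p =>
    intro t
    exact ⟨p, by simpa using Path.nil p, by simpa using Path.nil p⟩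
  | free p q r₁ l h _ ih =>
    intro t
    obtain ⟨q', h1, h2⟩ := ih t
    exact ⟨q', Path.free _ _ _ _ h h1, h2⟩
  | test p q r₁ t' l h h' ih =>
    intro t
    cases t with
    | zero => exact ⟨p, by simpa using Path.nil p, by simpa using Path.test _ _ _ _ _ h h'⟩
    | succ t =>
      obtain ⟨q', h1, h2⟩ := ih t
      exact ⟨q', by simpa using Path.test _ _ _ _ _ h h1, by simpa using h2⟩

end NBP

/-- A matrix with zeros on the diagonal and values in `1, ..., s` outside the diagonal has at most
`(d + 1) ^ s` rows, if it is a product of matrices with inner dimension `d`. -/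
theorem rank_bound {ι X : Type} [Fintype ι] [Fintype X] (a b : ι → X → ℚ) (s : ℕ)
    (h0 : ∀ i, ∑ x, a i x * b i x = 0)
    (h1 : ∀ i j, i ≠ j → ∃ c : ℕ, 1 ≤ c ∧ c ≤ s ∧ ∑ x, a i x * b j x = c) :
    Fintype.card ι ≤ (Fintype.card X + 1) ^ s := by
  classical
  let U : Matrix ι (Fin s → Option X) ℚ :=
    fun i f => ∏ t : Fin s, (match f t with | none => 1 | some x => a i x)
  let V : Matrix (Fin s → Option X) ι ℚ :=
    fun f j => ∏ t : Fin s, (match f t with | none => 1 | some x => - (b j x) / ((t : ℕ) + 1))
  have hUV : U * V = 1 := by
    ext i j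
    rw [Matrix.mul_apply]
    have h2 : ∑ f : Fin s → Option X, U i f * V f j =
        ∏ t : Fin s, (1 - (∑ x, a i x * b j x) / ((t : ℕ) + 1)) := by
      have h3 : ∀ t : Fin s, (1 - (∑ x, a i x * b j x) / ((t : ℕ) + 1) : ℚ) =
          ∑ o : Option X, (match o with | none => 1 | some x => a i x) *
            (match o with | none => 1 | some x => - (b j x) / ((t : ℕ) + 1)) := by
        intro t
        rw [Fintype.sum_option]
        simp only [one_mul]
        rw [Finset.sum_div, sub_eq_add_neg, ← Finset.sum_neg_distrib]
        congr 1
        refine Finset.sum_congr rfl fun x _ => ?_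
        ring
      rw [Finset.prod_congr rfl fun t _ => h3 t, Finset.prod_univ_sum]
      rw [Fintype.piFinset_univ]
      refine Finset.sum_congr rfl fun f _ => ?_
      rw [← Finset.prod_mul_distrib]
    rw [h2]
    by_cases hij : i = j
    · subst hij
      rw [h0 i, Matrix.one_apply_eq]
      simp
    · rw [Matrix.one_apply_ne hij]
      obtain ⟨c, hc1, hc2, hc3⟩ := h1 i j hij
      rw [hc3]
      refine Finset.prod_eq_zero (Finset.mem_univ (⟨c - 1, by omega⟩ : Fin s)) ?_
      have : ((c - 1 : ℕ) : ℚ) + 1 = c := by
        rw [Nat.cast_sub hc1]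
        ring
      simp only [this]
      rw [div_self, sub_self]
      have : (c : ℚ) ≠ 0 := by
        have : 0 < c := by omega
        exact_mod_cast this.ne'
      exact this
  have h4 : (1 : Matrix ι ι ℚ).rank = Fintype.card ι := Matrix.rank_one
  have h5 : (U * V).rank ≤ U.rank := Matrix.rank_mul_le_left U V
  have h6 : U.rank ≤ Fintype.card (Fin s → Option X) := Matrix.rank_le_card_width U
  rw [hUV, h4] at h5
  refine h5.trans (h6.trans (le_of_eq ?_))
  rw [Fintype.card_fun, Fintype.card_option, Fintype.card_fin]

end Pool.Agent.Lib.MP_9277c3_lc.RO
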